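import Pool.Agent.GRA.StmtsK
import Pool.Agent.Helper76_BSE.Cer
import Pool.Agent.Helper47_BSE.Fin2

/-! Module KGG of the theorem on weighted graphs. -/

set_option autoImplicit false

open MeasureTheory Matrix Finset
open scoped ComplexConjugate

namespace Pool.Agent.GRA.H35

open Pool.Agent.Helper64_FR Pool.Agent.UTR Pool.Agent.BSE

/-- the integral of the quartic -/
theorem gint {n : ℕ} (B : Finset (Fin n)) (hB : B.Nonempty) (c : Fin n → ℝ) :
    ∫ A : UB B, gg (TB B (A : UU n) c) ∂(haarB B) =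
      gg c - ((1 / 2) * ∑ i ∈ B, ∑ m ∈ B, (c i - c m) ^ 4 +
        ∑ m ∈ Bᶜ, ∑ i ∈ B, (c i - c m) ^ 4) +
          ∑ m ∈ Bᶜ, B.card * q4 B (fun j => c j - c m) := by
  have hprob := H76.haarB_prob B
  obtain ⟨b, hb⟩ : ∃ b, b = B.min' hB := ⟨_, rfl⟩
  have hbB : b ∈ B := by
    rw [hb]
    exact B.min'_mem hB
  have hTB : ∀ A : UU n, TB B A c = fun i => if i ∈ B then
      ∑ j ∈ B, ‖(A : Matrix (Fin n) (Fin n) ℂ) j b‖ ^ 2 * c j else c i := by
    intro A
    funext i
    unfold TB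
    by_cases hi : i ∈ B
    · rw [dif_pos hi, if_pos hi, hb]
    · rw [dif_neg hi, if_neg hi]
  have hV : ∀ (A : UB B) (m : Fin n),
      ∑ j ∈ B, ‖((A : UU n) : Matrix (Fin n) (Fin n) ℂ) j b‖ ^ 2 * c j - c m =
        ∑ j ∈ B, ‖((A : UU n) : Matrix (Fin n) (Fin n) ℂ) j b‖ ^ 2 * (c j - c m) := by
    intro A m
    have h1 := H76.col_one B hbB A
    have h2 : ∑ j ∈ B, ‖((A : UU n) : Matrix (Fin n) (Fin n) ℂ) j b‖ ^ 2 * (c j - c m) =
        ∑ j ∈ B, ‖((A : UU n) : Matrix (Fin n) (Fin n) ℂ) j b‖ ^ 2 * c j -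
          (∑ j ∈ B, ‖((A : UU n) : Matrix (Fin n) (Fin n) ℂ) j b‖ ^ 2) * c m := by
      rw [Finset.sum_mul, ← Finset.sum_sub_distrib]
      exact Finset.sum_congr rfl fun j _ => by ring
    rw [h2, h1, one_mul]
  have hcont : ∀ a : Fin n → ℝ, Continuous fun A : UB B =>
      (∑ j ∈ B, ‖((A : UU n) : Matrix (Fin n) (Fin n) ℂ) j b‖ ^ 2 * a j) ^ 4 := by
    intro a
    apply Continuous.pow
    refine continuous_finsetSum _ fun j _ => ?_
    apply Continuous.mul _ continuous_const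
    apply Continuous.pow
    apply Continuous.norm
    exact (continuous_apply_apply j b).comp
      (continuous_subtype_val.comp continuous_subtype_val)
  have hint : ∀ a : Fin n → ℝ, Integrable (fun A : UB B =>
      (∑ j ∈ B, ‖((A : UU n) : Matrix (Fin n) (Fin n) ℂ) j b‖ ^ 2 * a j) ^ 4) (haarB B) :=
    fun a => (hcont a).integrable_of_hasCompactSupport (HasCompactSupport.of_compactSpace _)
  have hgg : ∀ A : UB B, gg (TB B (A : UU n) c) =
      gg c - ((1 / 2) * ∑ i ∈ B, ∑ m ∈ B, (c i - c m) ^ 4 +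
        ∑ m ∈ Bᶜ, ∑ i ∈ B, (c i - c m) ^ 4) + ∑ m ∈ Bᶜ, B.card *
          (∑ j ∈ B, ‖((A : UU n) : Matrix (Fin n) (Fin n) ℂ) j b‖ ^ 2 * (c j - c m)) ^ 4 := by
    intro A
    rw [hTB, H76.gg_piece, Finset.sum_sub_distrib]
    have h1 : ∑ m ∈ Bᶜ, (B.card : ℝ) *
        (∑ j ∈ B, ‖((A : UU n) : Matrix (Fin n) (Fin n) ℂ) j b‖ ^ 2 * c j - c m) ^ 4 =
        ∑ m ∈ Bᶜ, B.card *
          (∑ j ∈ B, ‖((A : UU n) : Matrix (Fin n) (Fin n) ℂ) j b‖ ^ 2 * (c j - c m)) ^ 4 :=
      Finset.sum_congr rfl fun m _ => by rw [hV A m]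
    rw [h1]
    ring
  simp only [hgg]
  rw [integral_add (integrable_const _)
    (integrable_finsetSum _ fun m _ => (hint fun j => c j - c m).const_mul _),
    integral_const, probReal_univ, one_smul,
    integral_finsetSum _ fun m _ => (hint fun j => c j - c m).const_mul _]
  congr 1
  refine Finset.sum_congr rfl fun m _ => ?_
  rw [integral_const_mul, H47.mo2 n B b hbB (fun j => c j - c m)]

/-- the contribution of `m` to the pair `i, j` -/
noncomputable def G (x y z : ℝ) : ℝ :=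
  (x - z) ^ 4 + (y - z) ^ 4 - 2 / 5 * ((x - z) ^ 4 + (x - z) ^ 3 * (y - z) +
    (x - z) ^ 2 * (y - z) ^ 2 + (x - z) * (y - z) ^ 3 + (y - z) ^ 4)

theorem pairD {n : ℕ} (c : Fin n → ℝ) (i j : Fin n) (hij : i ≠ j) :
    gg c - ∫ A : UB ({i, j} : Finset (Fin n)), gg (TB {i, j} (A : UU n) c) ∂(haarB {i, j}) =
      -(1 / 5) * (c i - c j) ^ 4 + ∑ m, G (c i) (c j) (c m) := by
  rw [gint {i, j} ⟨i, by simp⟩ c]
  have hcard : (({i, j} : Finset (Fin n)).card : ℝ) = 2 := by
    rw [Finset.card_pair hij]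
    norm_num
  have hq : ∀ m, q4 ({i, j} : Finset (Fin n)) (fun l => c l - c m) =
      1 / 5 * ((c i - c m) ^ 4 + (c i - c m) ^ 3 * (c j - c m) +
    (c i - c m) ^ 2 * (c j - c m) ^ 2 + (c i - c m) * (c j - c m) ^ 3 + (c j - c m) ^ 4) := by
    intro m
    unfold q4
    rw [hcard]
    simp only [Finset.sum_pair hij]
    ring
  have hs : ∑ m, G (c i) (c j) (c m) = ∑ m ∈ ({i, j} : Finset (Fin n)), G (c i) (c j) (c m) +
      ∑ m ∈ ({i, j} : Finset (Fin n))ᶜ, G (c i) (c j) (c m) :=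
    (Finset.sum_add_sum_compl _ _).symm
  rw [hs, hcard]
  have hc : ∑ m ∈ ({i, j} : Finset (Fin n))ᶜ, G (c i) (c j) (c m) =
      ∑ m ∈ ({i, j} : Finset (Fin n))ᶜ, ∑ l ∈ ({i, j} : Finset (Fin n)), (c l - c m) ^ 4 -
      ∑ m ∈ ({i, j} : Finset (Fin n))ᶜ, 2 * q4 ({i, j} : Finset (Fin n)) (fun l => c l - c m) := by
    rw [← Finset.sum_sub_distrib]
    refine Finset.sum_congr rfl fun m _ => ?_
    rw [hq, Finset.sum_pair hij]
    unfold G
    ring
  rw [hc]
  simp only [Finset.sum_pair hij]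
  unfold G
  ring

theorem sumPairs {n : ℕ} (F : Finset (Fin n) → ℝ) :
    2 * ∑ B : Finset (Fin n), wK n B * F B =
      ∑ i, ∑ j, if i = j then 0 else F {i, j} := by
  have h1 : ∀ i j : Fin n, (if i = j then 0 else F {i, j}) =
      ∑ B : Finset (Fin n), if i ≠ j ∧ B = {i, j} then F B else 0 := by
    intro i j
    by_cases h : i = j
    · simp [h]
    · rw [if_neg h]
      rw [Finset.sum_eq_single ({i, j} : Finset (Fin n))]
      · rw [if_pos ⟨h, rfl⟩]
      · intro B _ hB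
        rw [if_neg (fun h2 => hB h2.2)]
      · intro h2
        exact absurd (Finset.mem_univ _) h2
  simp only [h1]
  have h2 : ∑ i : Fin n, ∑ j : Fin n, ∑ B : Finset (Fin n),
      (if i ≠ j ∧ B = {i, j} then F B else 0) =
      ∑ B : Finset (Fin n), ∑ i : Fin n, ∑ j : Fin n,
      (if i ≠ j ∧ B = {i, j} then F B else 0) := by
    calc ∑ i : Fin n, ∑ j : Fin n, ∑ B : Finset (Fin n),
      (if i ≠ j ∧ B = {i, j} then F B else 0) = ∑ i : Fin n, ∑ B : Finset (Fin n), ∑ j : Fin n,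
      (if i ≠ j ∧ B = {i, j} then F B else 0) :=
          Finset.sum_congr rfl fun i _ => Finset.sum_comm
      _ = _ := Finset.sum_comm
  rw [h2, Finset.mul_sum]
  refine Finset.sum_congr rfl fun B _ => ?_
  unfold wK
  by_cases hB : B.card = 2
  · rw [if_pos hB]
    obtain ⟨a, b, hab, rfl⟩ := Finset.card_eq_two.1 hB
    have h3 : ∀ i j : Fin n, (if i ≠ j ∧ ({a, b} : Finset (Fin n)) = {i, j} then F {a, b} else 0) =
        (if i = a then (if j = b then F {a, b} else 0) else 0) +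
        (if i = b then (if j = a then F {a, b} else 0) else 0) := by
      intro i j
      by_cases hc : i ≠ j ∧ ({a, b} : Finset (Fin n)) = {i, j}
      · rw [if_pos hc]
        obtain ⟨hc1, hc2⟩ := hc
        have hi : i ∈ ({a, b} : Finset (Fin n)) := by rw [hc2]; simp
        have hj : j ∈ ({a, b} : Finset (Fin n)) := by rw [hc2]; simp
        simp only [Finset.mem_insert, Finset.mem_singleton] at hi hj
        rcases hi with rfl | rfl <;> rcases hj with rfl | rfl
        · exact absurd rfl hc1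
        · simp [hab]
        · simp [hab.symm]
        · exact absurd rfl hc1
      · rw [if_neg hc]
        have h4 : ¬ (i = a ∧ j = b) := by
          rintro ⟨rfl, rfl⟩
          exact hc ⟨hab, rfl⟩
        have h5 : ¬ (i = b ∧ j = a) := by
          rintro ⟨rfl, rfl⟩
          exact hc ⟨hab.symm, Finset.pair_comm _ _⟩
        by_cases e1 : i = a <;> by_cases e2 : j = b <;> by_cases e3 : i = b <;>
          by_cases e4 : j = a <;> simp_all
    simp only [h3, Finset.sum_add_distrib, Finset.sum_ite_eq', Finset.mem_univ, if_true,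
      Finset.sum_const_zero, Finset.sum_ite_irrel]
    ring
  · rw [if_neg hB, zero_mul, mul_zero]
    symm
    refine Finset.sum_eq_zero fun i _ => Finset.sum_eq_zero fun j _ => ?_
    rw [if_neg]
    rintro ⟨h3, rfl⟩
    exact hB (Finset.card_pair h3)

theorem kgg : KGGStmt := by
  intro n c
  have h1 := sumPairs (fun B : Finset (Fin n) =>
    gg c - ∫ A : UB B, gg (TB B (A : UU n) c) ∂(haarB B))
  have h2 : ∀ i j : Fin n, (if i = j then 0 else
      gg c - ∫ A : UB ({i, j} : Finset (Fin n)), gg (TB {i, j} (A : UU n) c) ∂(haarB {i, j})) =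
      -(1 / 5) * (c i - c j) ^ 4 + ∑ m, G (c i) (c j) (c m) := by
    intro i j
    by_cases h : i = j
    · subst h
      rw [if_pos rfl]
      have h3 : ∀ m, G (c i) (c i) (c m) = 0 := by
        intro m
        unfold G
        ring
      simp only [h3, Finset.sum_const_zero]
      ring
    · rw [if_neg h, pairD c i j h]
  simp only [h2] at h1
  have h3 : ∑ i, ∑ j, ∑ m, G (c i) (c j) (c m) = (6 / 5) * n * gg c := by
    have e1 : ∑ i, ∑ j, ∑ m, G (c i) (c j) (c m) = ∑ i, ∑ j, ∑ m, G (c j) (c m) (c i) := by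
      calc ∑ i, ∑ j, ∑ m, G (c i) (c j) (c m) = ∑ i, ∑ m, ∑ j, G (c i) (c j) (c m) :=
            Finset.sum_congr rfl fun i _ => Finset.sum_comm
        _ = ∑ m, ∑ i, ∑ j, G (c i) (c j) (c m) := Finset.sum_comm
    have e2 : ∑ i, ∑ j, ∑ m, G (c i) (c j) (c m) = ∑ i, ∑ j, ∑ m, G (c m) (c i) (c j) := by
      calc ∑ i, ∑ j, ∑ m, G (c i) (c j) (c m) = ∑ j, ∑ i, ∑ m, G (c i) (c j) (c m) :=
            Finset.sum_comm
        _ = ∑ j, ∑ m, ∑ i, G (c i) (c j) (c m) := Finset.sum_congr rfl fun i _ => Finset.sum_comm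
    have e3 : ∑ i, ∑ j, ∑ m, (G (c i) (c j) (c m) + G (c j) (c m) (c i) + G (c m) (c i) (c j)) =
        ∑ i, ∑ j, ∑ m, (3 / 5) * ((c i - c j) ^ 4 + (c j - c m) ^ 4 + (c m - c i) ^ 4) := by
      refine Finset.sum_congr rfl fun i _ => Finset.sum_congr rfl fun j _ =>
        Finset.sum_congr rfl fun m _ => ?_
      unfold G
      ring
    have g1 : ∑ i, ∑ j, ∑ _m : Fin n, (c i - c j) ^ 4 = n * (2 * gg c) := by
      unfold gg
      simp only [Finset.sum_const, Finset.card_univ, Fintype.card_fin, nsmul_eq_mul,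
        ← Finset.mul_sum]
      ring
    have g2 : ∑ _i : Fin n, ∑ j, ∑ m, (c j - c m) ^ 4 = n * (2 * gg c) := by
      unfold gg
      simp only [Finset.sum_const, Finset.card_univ, Fintype.card_fin, nsmul_eq_mul]
      ring
    have g3 : ∑ i, ∑ _j : Fin n, ∑ m, (c m - c i) ^ 4 = n * (2 * gg c) := by
      have : ∑ i, ∑ m, (c m - c i) ^ 4 = ∑ i, ∑ m, (c i - c m) ^ 4 := Finset.sum_comm
      unfold gg
      simp only [Finset.sum_const, Finset.card_univ, Fintype.card_fin, nsmul_eq_mul,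
        ← Finset.mul_sum, this]
      ring
    simp only [Finset.sum_add_distrib, ← Finset.mul_sum, g1, g2, g3] at e3
    rw [← e1, ← e2] at e3
    linarith
  simp only [Finset.sum_add_distrib, h3, ← Finset.mul_sum] at h1
  have h4 : ∑ i, ∑ j, (c i - c j) ^ 4 = 2 * gg c := by
    unfold gg
    ring
  rw [h4] at h1
  linarith

end Pool.Agent.GRA.H35
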